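import Pool.Agent.W2helper82.OA.Defs

/-!
# Outer boundaries, almost sure lower bound: statements of the pieces

Coordinates: `z = (x, y)`, `o = og z g s = (x + 3g, y + 12s)`, `64 g ≤ s`.
-/

set_option autoImplicit false

namespace Pool.Agent.W2helper82.OA

open H974 H12S Finset H984P H984N
open Pool.Agent.Y989.FR (Awy AE)

/-! ### RSW (known, used as hypotheses; `Pool.Agent.W424.AR.rsw`, `rsw_dual`) -/

def S_RSW : Prop := ∀ K : ℕ, 1 ≤ K → ∃ c : ℝ, 0 < c ∧ c ≤ 1 ∧ ∀ w h : ℤ, 1 ≤ w → 1 ≤ h →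
  w ≤ K * h → c ≤ hh (1/2) w h

def S_RSWD : Prop := ∀ K : ℕ, 1 ≤ K → ∃ c : ℝ, 0 < c ∧ ∀ w h : ℤ, 2 ≤ w → 0 ≤ h →
  h ≤ K * w → c ≤ 1 - hh (1/2) w h

/-! ### P1. Abstract probability -/

/-- Fresh configuration outside of an explored set.  Proof: at `p = 1/2` both sides are normalised
sums over pairs `(F, G)`; use the involution
`(F, G) ↦ ((F ∩ R F) ∪ (G \ R F), (G ∩ R F) ∪ (F \ R F))` on `S.powerset ×ˢ S.powerset`. -/
def S_DEC1 : Prop := ∀ (S : Finset Edg) (R : Finset Edg → Finset Edg)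
  (Φ : Finset Edg → Finset Edg → ℝ),
  (∀ F, F ⊆ S → R F ⊆ S) →
  (∀ F F', F ⊆ S → F' ⊆ S → F ∩ R F = F' ∩ R F → R F' = R F) →
  (∀ F F' X, F ⊆ S → F' ⊆ S → F ∩ R F = F' ∩ R F → Φ F X = Φ F' X) →
  Ex ph S (fun F => Φ F (F \ R F)) = Ex ph S (fun F => Ex ph S (fun G => Φ F (G \ R F)))

/-- Iteration over disjoint sets of edges. -/
def S_ITE : Prop := ∀ (S : Finset Edg) (J : ℕ) (M : ℕ → Finset Edg) (E' : Finset Edg → Prop)
  (good : ℕ → Finset Edg → Prop) (c : ℝ), 0 ≤ c → c ≤ 1 →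
  (∀ j < J, M j ⊆ S) → (∀ i < J, ∀ j < J, i ≠ j → Disjoint (M i) (M j)) →
  (∀ j < J, ∀ F, F ⊆ S → (good j F ↔ good j (F ∩ M j))) →
  (∀ j < J, ∀ H, H ⊆ S \ M j → c * Pr ph (M j) (fun A => E' (A ∪ H)) ≤
    Pr ph (M j) (fun A => E' (A ∪ H) ∧ good j A)) →
  Pr ph S (fun F => E' F ∧ ∀ j < J, ¬ good j F) ≤ (1 - c) ^ J * Pr ph S E'

/-- FKG with a sprinkled inner part: `M = I ⊔ O`; given the edges of `I`, everything is increasing
in `O`; `E' ∧ Lam` implies `E'` without the edges of `I`.  Proof: `Ex_union`, replace `E'(A ∪ H)` by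
the smaller `E'((A \ I) ∪ H)`, integrate over `I`, Harris twice on `O`. -/
def S_TRI : Prop := ∀ (M I H : Finset Edg) (E' Lam Rich : Finset Edg → Prop), I ⊆ M →
  (∀ A A', A ⊆ A' → A' ⊆ M → E' (A ∪ H) → E' (A' ∪ H)) →
  IncrE M Lam → (∀ A, A ⊆ M → (Lam A ↔ Lam (A \ I))) →
  (∀ A, A ⊆ M → E' (A ∪ H) → Lam A → E' ((A \ I) ∪ H)) →
  (∀ A A', A ⊆ A' → A' ⊆ M → A ∩ I = A' ∩ I → Rich A → Rich A') →
  Pr ph M Lam * Pr ph M Rich * Pr ph M (fun A => E' (A ∪ H)) ≤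
    Pr ph M (fun A => E' (A ∪ H) ∧ (Lam A ∧ Rich A))

/-! ### P3. The number of macroscopic clusters -/

/-- Proof: the clusters counted by `z ↦ Ez N m z` are distinct, and each of them crosses one of the
at most `N / q + 1 ≤ 3 K + ...` rectangles `[i q, (i+1) q] × [0, N]`, `q = m / 2`, from left to
right; the number of disjoint clusters crossing a rectangle has geometric tails by BK
(`H974.bk`; `A_k` = there are `k` pairwise edge-disjoint left-right crossings, increasing,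
`P(A_(k+1)) ≤ P(A_k) P(LRc)`), and `P(LRc) ≤ 1 - c` by `S_RSWD`. -/
def S_CNT : Prop := ∀ K : ℕ, 1 ≤ K → ∃ C : ℝ, 0 < C ∧ ∀ N m : ℕ, 4 ≤ m → N ≤ K * m →
  ∑ z ∈ BX N, Pr ph (RE 0 N 0 N) (Ez N m z) ≤ C

/-! ### P4. Nice scales -/

/-- Proof: `Nice z g s` is decreasing and depends on the edges of `blk z (40 s) \ blk z s` only;
its probability is at least `c(K) > 0` (Harris for decreasing events, `S_RSWD`; an annulus is not
crossed if four rectangles are not crossed in the short direction); for `j = b L + l` the scales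
`g_j = g0 64^j`, `s_j = K g_j` give disjoint annuli: independence, union bound over `b`. -/
def S_NICE : Prop := ∀ K : ℕ, 64 ≤ K → ∀ (η : ℝ) (J : ℕ), 0 < η → ∃ L : ℕ, 0 < L ∧
  ∀ (g0 : ℕ) (z : Vtx) (S : Finset Edg), 2 ≤ g0 → blk z (40 * (K * (g0 * 64 ^ (J * L)))) ⊆ S →
    Pr ph S (fun G => ∃ b < J, ∀ l < L,
      ¬ Nice z (g0 * 64 ^ (b * L + l)) (K * (g0 * 64 ^ (b * L + l))) G) ≤ η

/-! ### P5. Exploration -/

/-- Proof.  Vertices of a path from `a ∈ AA` to a smaller vertex are in `AA`, its edges in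
`F ∩ RV`.
(N1) `a ∈ AA`, `4s ≤ sd a z ≤ 20s` implies `a.1 ≤ z.1 + g`: by `NoX` the path stays in
`2s < sd < 40s`; if `a.1 > z.1 + g` it crosses the columns `[z.1, z.1 + g]` (`sub_LR`), on one side
of `z`, against `Nice`.
(N2) for `u ∈ AA` in the rows `[a, a+s]` above (below) `z` follow the path until it leaves
`{z.1 ≤ ·.1, rows [a-s, a+2s]}`; by N1 it stays in columns `≤ z.1 + g`, and by the bars `TBc` of
`Nice` it cannot leave through the top or the bottom; so it reaches a smaller vertex of the zone,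
from which one goes to the left in `Ob`. -/
def S_NDET : Prop := ∀ (N g s : ℕ) (z : Vtx) (F : Finset Edg), 0 < g → 64 * g ≤ s →
  inR 0 N 0 N z → z.1 + 41 * s ≤ N → z.2 + 41 * s ≤ N → z ∉ AA N z F →
  Nice z g s (F ∩ RV N z F) → ObOk z g s (ObS N z F)

/-- Facts on the exploration of `AA` and of the cluster of `z`. -/
structure ExpOk : Prop where
  rv : ∀ (N : ℕ) (z : Vtx) (F F' : Finset Edg), F ∩ RV N z F = F' ∩ RV N z F →
    RV N z F' = RV N z F ∧ AA N z F' = AA N z F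
  ez : ∀ (N m : ℕ) (z : Vtx) (F : Finset Edg), Ez N m z F ↔ inR 0 N 0 N z ∧ z ∉ AA N z F ∧
    ∃ w : Vtx, z.1 + m ≤ w.1 ∧ Reach (↑(F \ RV N z F) ∩ GrV (ObS N z F)ᶜ) z w
  cl : ∀ (N : ℕ) (z : Vtx) (F : Finset Edg), inR 0 N 0 N z → z ∉ AA N z F →
    Clu N z F = {u | Reach (↑(F \ RV N z F) ∩ GrV (ObS N z F)ᶜ) z u}
  gr : ∀ (N : ℕ) (z : Vtx) (F G : Finset Edg),
    (↑(G \ RV N z F) ∩ GrV (ObS N z F)ᶜ : Set Edg) = ↑G ∩ GrV (ObS N z F)ᶜ
  sub : ∀ (N : ℕ) (z : Vtx) (F : Finset Edg), GrV (ObS N z F)ᶜ ⊆ ↑(RE 0 N 0 N)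
  /-- first exploration: the cluster of `z` -/
  fst : ∀ (N m : ℕ) (z : Vtx), ∃ R : Finset Edg → Finset Edg, (∀ F, R F ⊆ RE 0 N 0 N) ∧
    (∀ F F', F ∩ R F = F' ∩ R F → R F' = R F) ∧
    (∀ F F', F ∩ R F = F' ∩ R F → (Ez N m z F ↔ Ez N m z F')) ∧
    (∀ F, Ez N m z F → F ∩ RV N z F ⊆ F \ R F)

/-! ### P6, P7. Planar topology -/

/-- Proof.  `W` = vertices of the band joined to `b0` in `H ∩ GrV Obᶜ ∩ (bandE ∪ kapE)`.
Barrier `V2` (a top-bottom crossing of the rectangle `[x-s, x+a+3s] × [y-a-3s, y+a+3s]` by edges of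
`GrV U`, `U = (W ∩ band) ∪ (Ob ∩ ({rows ≥ y+a-s} ∪ {rows ≤ y-a+s} ∪ {rows < 0}))`): the part of the
crossing `κ` in the columns `[x+a, x+a+s]` meets the crossings `u` and `l` of the band; `u` meets
`t`, all in `Obᶜ` (by `fre`, as rows `≥ y ≥ 0`); follow `t` to the left until the first vertex of
`Ob`, then `top` leads to column `x-1`, go up in this column.  Follow `l` down until the first
vertex of `Ob` (then it is below row `0`: go straight down) or until it meets `b`; follow `b` to the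
left until the first vertex of `Ob`: it is below row `0` (go straight down) or `low` leads to column
`x-1`, go down.
`V1` (a left-right crossing): the row of `u` from column `x-s` to `u`, the path until its first
vertex `p` with `sd p z = a+3s`, the row of `p` from `p` to column `x+a+3s`.
`V1` and `V2` have a common vertex (`crossings_meet`), which must be a vertex of the path in `W`. -/
def S_T1 : Prop := ∀ (z : Vtx) (g s a : ℕ) (Ob : Set Vtx) (H : Finset Edg) (b0 b1 : Vtx),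
  0 < g → 64 * g ≤ s → 0 ≤ z.2 → ObOk z g s Ob → (a = 6 * s ∨ a = 16 * s) → Band z s a H →
  b0.1 = z.1 + 5 * s → b1.1 = z.1 + 18 * s → (z.2 ≤ b0.2 ∧ b0.2 ≤ z.2 + 2 * s) →
  (z.2 ≤ b1.2 ∧ b1.2 ≤ z.2 + 2 * s) →
  Reach (↑H ∩ ↑(LRE (z.1 + 5 * s) (z.1 + 18 * s) z.2 (z.2 + 2 * s))) b0 b1 →
  ∀ (A : Set Edg) (u w : Vtx), A ⊆ GrV Obᶜ → u ∉ Ob → sd u z + 2 * s ≤ a →
    (a : ℤ) + 3 * s ≤ sd w z → Reach A u w →
    ∃ x0, Reach A u x0 ∧ Reach (↑H ∩ GrV Obᶜ ∩ ↑(bandE z s a ∪ kapE z s)) x0 b0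

/-- Proof from `S_T1` (`a = 6s`, `A` = edges of `blk z (9s)`; `a = 16s`, `A` = edges not in
`blk z (14s)`, which contain no edge of `IE`; the bands and `kapE` do not contain edges of `IE`
either); second part: `S_T1` with `a = 16s` for the path `p q` (its vertices are in `Obᶜ`). -/
def S_T2 : Prop := ∀ (z : Vtx) (g s c : ℕ) (Ob : Set Vtx) (H : Finset Edg),
  0 < g → 64 * g ≤ s → 10 * g ≤ c → c + 10 * g ≤ s → 0 ≤ z.2 → ObOk z g s Ob →
  LamEv z g s c H → ∀ w : Vtx, 20 * (s : ℤ) ≤ sd w z → Reach (↑H ∩ GrV Obᶜ) z w →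
    Reach (↑(H \ IE (og z g s) g s c) ∩ GrV Obᶜ) z w ∧
    ∀ p q : Vtx, p.2 = (og z g s).2 - 2 * s → q.2 = (og z g s).2 + 7 * s →
      inR ((og z g s).1 + s + 1) ((og z g s).1 + 2 * s) ((og z g s).2 - 2 * s)
        ((og z g s).2 + 7 * s) p →
      inR ((og z g s).1 + s + 1) ((og z g s).1 + 2 * s) ((og z g s).2 - 2 * s)
        ((og z g s).2 + 7 * s) q →
      Reach (↑H ∩ ↑(TBE ((og z g s).1 + s + 1) ((og z g s).1 + 2 * s) ((og z g s).2 - 2 * s)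
        ((og z g s).2 + 7 * s))) p q → Reach (↑H ∩ GrV Obᶜ) z p

/-! ### P8. Probability of the crossings -/

/-- Proof: fourteen increasing crossing events, `S_RSW`, Harris. -/
structure LamOk : Prop where
  pr : ∀ K : ℕ, 64 ≤ K → ∃ p : ℝ, 0 < p ∧ ∀ (g c : ℕ) (z : Vtx) (S : Finset Edg), 2 ≤ g →
    10 * g ≤ c → c + 10 * g ≤ K * g →
    blk z (20 * (K * g)) \ blk z (4 * (K * g)) ⊆ S → p ≤ Pr ph S (LamEv z g (K * g) c)
  mono : ∀ (z : Vtx) (g s c : ℕ) (F G : Finset Edg), F ⊆ G → LamEv z g s c F → LamEv z g s c G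
  loc : ∀ (z : Vtx) (g s c : ℕ) (F : Finset Edg), 2 ≤ g → 64 * g ≤ s → 10 * g ≤ c →
    c + 10 * g ≤ s → LamEv z g s c F →
    LamEv z g s c (F ∩ ((blk z (20 * s) \ blk z (4 * s)) \ IE (og z g s) g s c))

/-! ### P9. Connection of `v` -/

/-- Proof: the five crossings of `Tht` (the right one is given by `p, q`) are joined
(`cross_meet`: `lt`-`top`-right-`bot`-`lb`).  The path of `OutEv` ends on the top side (then it
crosses `top`), on the bottom side, on the right side (crosses the right crossing), or on the left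
side `o.1 - g`: as it avoids `AV`, its last part in the columns `[o.1-g, o.1-1]` is above
`o.2+c+8g` or below `o.2+c-8g`, and crosses `lt` or `lb`. -/
def S_CON : Prop := ∀ (o : Vtx) (g s c : ℕ) (v : Vtx) (F : Finset Edg), 2 ≤ g → 64 * g ≤ s →
  10 * g ≤ c → c + 10 * g ≤ s → Cen o s v → OutEv o g s c v F → Tht o g s c F →
  ∀ p q : Vtx, p.2 = o.2 - 2 * s → q.2 = o.2 + 7 * s →
    inR (o.1 + s + 1) (o.1 + 2 * s) (o.2 - 2 * s) (o.2 + 7 * s) p →
    inR (o.1 + s + 1) (o.1 + 2 * s) (o.2 - 2 * s) (o.2 + 7 * s) q →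
    Reach (↑F ∩ ↑(TBE (o.1 + s + 1) (o.1 + 2 * s) (o.2 - 2 * s) (o.2 + 7 * s))) p q →
    Reach (↑F ∩ ↑(RE (o.1 - g) (o.1 + 2 * s) (o.2 - 2 * s) (o.2 + 7 * s))) v p

/-! ### P10. The thick path leaves through the corridor -/

/-- Proof.  `C = {u | Reach Q z u}`.  (i) a vertex of `C` in `B₀` is `Dang o s G` (`first_exit`; `z`
is outside of `B₀`).  (ii) `C` has no vertex with `o.1-4g ≤ ·.1 ≤ o.1+3g`, `|·.2-(o.2+c)| ≤ 2g`:
otherwise follow `Q` to `z`, first exit from the corridor box: not on its left side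
(`z.1 = o.1-3g ≤ ·.1` on `C`), not on the top or bottom side (walls), and on the right side it would
be a dangerous deep vertex near the window.  (iii) path: the path of `InEv` (`Awy` for `Dang ∩ Deep`
by hypothesis, for other vertices of `C` because they are at distance `≥ g` and `s ≤ K g`), then
the row `o.2 + c` from column `o.1+2g` to column `v.1-2N`: the distance to `C` is `≥ g` and
`≥ o.1-3g-column`. -/
def S_COR : Prop := ∀ (z : Vtx) (g s c M B N K : ℕ) (Q : Set Edg) (G : Finset Edg) (v : Vtx),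
  0 < g → 64 * g ≤ s → s ≤ K * g → s ≤ N → 1 ≤ B → 10 * g ≤ c → c + 10 * g ≤ s →
  Cen (og z g s) s v → InEv (og z g s) g s c M B v G → (∀ u, Reach Q z u → z.1 ≤ u.1) →
  Q ∩ ↑(IE (og z g s) g s c) ⊆ ↑G →
  Thk (M + 4 * K + 4) B (2 * N) v {u | Reach Q z u}

/-! ### P11 - P15. The local estimate -/

/-- One-point lower bound.  Adapt `W2helper75.OB.one` (hypotheses `Y989.FR.S_ACC`, `S_THK`). -/
def S_BASE : Prop := ∃ (M B n0 : ℕ) (c : ℝ), 16 ≤ M ∧ 1 ≤ B ∧ 0 < c ∧ ∀ s : ℕ, n0 ≤ s →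
  ∀ v ∈ CtrS s, c * (s : ℝ) ^ (-(2 / 3 : ℝ)) ≤ Pr ph (blk v (128 * s)) (BaseEv M B s v)

/-- Two-point upper bound.  From `W801.AV.a_TWO` and `W801.AV.t_ONU` (all distances). -/
def S_TWOL : Prop := ∃ (C : ℝ) (n0 : ℕ), 0 < C ∧ ∀ s : ℕ, n0 ≤ s → ∀ v ∈ CtrS s, ∀ w ∈ CtrS s,
  Pr ph (RE 0 s 0 s) (fun F => EL s v (Clu s v F) ∧ EL s w (Clu s w F)) ≤
    C * ((max (sd v w) 1 : ℤ) : ℝ) ^ (-(2 / 3) : ℝ) * (s : ℝ) ^ (-(2 / 3) : ℝ)

/-- The first exit of the thick path from `[2g, s-2g]²` is on one of four sides; symmetries of the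
square `[0,s]²` (`rfx s`, `rfy s`, `tps`) reduce to the left side. -/
def S_SYM4 : Prop := ∀ g s M B : ℕ, 0 < g → 64 * g ≤ s →
  ∑ v ∈ CtrS s, Pr ph (blk v (128 * s)) (BaseEv M B s v) ≤
    4 * ∑ v ∈ CtrS s, Pr ph (blk v (128 * s)) (ExL g s M B v)

/-- Proof: `s = K g`.  By `Awy` the exit vertex `(2g, h)` has distance more than `40 g` to `KH`
(`s/4 ≤ sd` to `v`, `K ≥ 64 M 64^B`); with `i = min (max (h / g) 10) (K - 10)`, `|h - i g| ≤ 9 g`;
move along the column `2g` from `h` to `i g`, all these vertices have distance `≥ 30 g` to `KH`. -/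
def S_WIN : Prop := ∀ M B K g : ℕ, 1 ≤ M → 1 ≤ B → 64 * M * 64 ^ B ≤ K → 0 < g →
  ∀ v ∈ CtrS (K * g), ∀ F : Finset Edg, ExL g (K * g) M B v F →
    ∃ i : ℕ, 10 ≤ i ∧ i + 10 ≤ K ∧ BaseL g (K * g) (i * g) K B v F

/-- Resampling outside of `KH`.  Proof: `F3 ∩ RK = F ∩ RK`, `F3 \ RK ⊆ G`.  `KH` and `Clu s v` are
the same for `F` and `F3`.  A vertex `Dang ∩ Deep` for `F3` is in `KH` (otherwise its path to the
boundary avoids `KH`, is in `G`, against `nr`).  Walls: an edge of `F3` in the corridor box does not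
touch `KH` (`win`), so it is in `G`. -/
structure CondOk : Prop where
  st : ∀ (s : ℕ) (v : Vtx) (F F' : Finset Edg), F ∩ RK s v F = F' ∩ RK s v F →
    RK s v F' = RK s v F ∧ KH s v F' = KH s v F
  bl : ∀ (g s c M B : ℕ) (v : Vtx) (F F' : Finset Edg), v ∈ CtrS s →
    F ∩ RK s v F = F' ∩ RK s v F → BaseL g s c M B v F → BaseL g s c M B v F'
  main : ∀ (g s c M B : ℕ) (v : Vtx) (F G : Finset Edg), 0 < g → 64 * g ≤ s → 10 * g ≤ c →
    c + 10 * g ≤ s → v ∈ CtrS s → BaseL g s c M B v F → DecAll g s c (G \ RK s v F) →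
    EL s v (Clu s v ((F ∩ RK s v F) ∪ (G \ RK s v F))) ∧
    InEv (0, 0) g s c M B v ((F ∩ RK s v F) ∪ (G \ RK s v F)) ∧
    OutEv (0, 0) g s c v ((F ∩ RK s v F) ∪ (G \ RK s v F))

/-- Proof: Harris for decreasing events, `S_RSWD`; `nr` follows if the four rectangles `[0,g]×[0,s]`
etc. at the sides of `B₀` are not crossed in the short direction. -/
structure DecOk : Prop where
  pr : ∀ K : ℕ, 64 ≤ K → ∃ p : ℝ, 0 < p ∧ ∀ (g c : ℕ) (S : Finset Edg), 2 ≤ g →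
    10 * g ≤ c → c + 10 * g ≤ K * g → p ≤ Pr ph S (DecAll g (K * g) c)
  anti : ∀ (g s c : ℕ) (F G : Finset Edg), F ⊆ G → DecAll g s c G → DecAll g s c F

/-- Locality, monotonicity and translation of `RichLoc`. -/
structure RlOk : Prop where
  trl : ∀ (o : Vtx) (g s c M B : ℕ) (c0 E0 t : ℝ) (F : Finset Edg),
    RichLoc (0, 0) g s c M B c0 E0 t F →
    RichLoc o g s c M B c0 E0 t ((trl o.1 o.2).mp F)
  mono : ∀ (o : Vtx) (g s c M B : ℕ) (c0 E0 t : ℝ) (F G : Finset Edg), F ⊆ G →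
    F ∩ IE o g s c = G ∩ IE o g s c → RichLoc o g s c M B c0 E0 t F →
    RichLoc o g s c M B c0 E0 t G
  loc : ∀ (o : Vtx) (g s c M B : ℕ) (c0 E0 t : ℝ) (F S : Finset Edg), IE o g s c ⊆ S →
    RE (o.1 - g) (o.1 + 2 * s) (o.2 - s) (o.2 + 2 * s) ⊆ S →
    (RichLoc o g s c M B c0 E0 t F ↔ RichLoc o g s c M B c0 E0 t (F ∩ S))
  loc1 : ∀ (g s c M B : ℕ) (v : Vtx) (F S : Finset Edg), IE (0, 0) g s c ⊆ S →
    RE (-g) (2 * s) (-s) (2 * s) ⊆ S →
    ((InEv (0, 0) g s c M B v F ∧ OutEv (0, 0) g s c v F) ↔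
      (InEv (0, 0) g s c M B v (F ∩ S) ∧ OutEv (0, 0) g s c v (F ∩ S)))

/-- The local estimate.  Proof: `BASE`, `SYM4`, `WIN`: for some window `c = i g` the sum over
`v ∈ CtrS s` of the probabilities of `BaseL` is `≥ c1 s^(4/3)`; `S_DEC1` with `R = RK` and
`CondOk`, `DecOk`: the same for `EL ∧ InEv ∧ OutEv`; second moment by `S_TWOL` (as in
`W2helper75.OB.good`, `paley`, `markov`); translation by `RlOk`. -/
def S_LOC : Prop := ∀ t : ℝ, 0 < t → t < 4 / 3 → ∃ (K M B g1 : ℕ) (c0 E0 p : ℝ), 64 ≤ K ∧ 1 ≤ B ∧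
  0 < c0 ∧ 0 < E0 ∧ 0 < p ∧ ∀ g : ℕ, g1 ≤ g → ∃ c : ℕ, 10 * g ≤ c ∧ c + 10 * g ≤ K * g ∧
    ∀ (o : Vtx) (S : Finset Edg), RE (o.1 - 5 * g) (o.1 + 2 * (K * g)) (o.2 - K * g)
      (o.2 + 2 * (K * g)) ⊆ S → p ≤ Pr ph S (RichLoc o g (K * g) c M B c0 E0 t)

/-! ### P16 - P18 -/

/-- Main estimate for one extremal vertex `z` (lower half of the box). -/
def S_MAINZ : Prop := ∀ t : ℝ, 0 < t → t < 4 / 3 → ∀ (K' : ℕ) (η : ℝ), 1 ≤ K' → 0 < η →
  ∃ (M B N1 : ℕ) (c0 E0 : ℝ), 1 ≤ B ∧ 0 < c0 ∧ 0 < E0 ∧ ∀ (N m : ℕ) (z : Vtx), N1 ≤ N →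
    N ≤ K' * m → m ≤ N → 2 * z.2 ≤ N →
    Pr ph (RE 0 N 0 N) (fun F => Ez N m z F ∧ ¬ RichOut N M B c0 E0 t (Clu N z F)) ≤
      η * Pr ph (RE 0 N 0 N) (Ez N m z)

/-- A cluster which contains two vertices at distance `≥ m` in one coordinate is rich, with high
probability.  Proof from `S_MAINZ` and `S_CNT`: union bound over `z` for clusters with horizontal
extent `≥ m` whose lexicographic minimum has `2 z.2 ≤ N`; the others by the symmetries `rfy N` and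
`tps` (if the lexicographic minimum `z` has `2 z.2 > N` then the image of the cluster under `rfy N`
has its minimum in the lower half; `Thk`, `sd`, `Enr` are invariant). -/
def S_FINL : Prop := ∀ t : ℝ, 0 < t → t < 4 / 3 → ∀ (K' : ℕ) (η : ℝ), 1 ≤ K' → 0 < η →
  ∃ (M B N1 : ℕ) (c0 E0 : ℝ), 1 ≤ B ∧ 0 < c0 ∧ 0 < E0 ∧ ∀ N m : ℕ, N1 ≤ N →
    N ≤ K' * m → m ≤ N →
    Pr ph (RE 0 N 0 N) (fun F => ∃ u v : Vtx, inR 0 N 0 N u ∧ v ∈ Clu N u F ∧
      (u.1 + m ≤ v.1 ∨ u.2 + m ≤ v.2) ∧ ¬ RichOut N M B c0 E0 t (Clu N u F)) ≤ η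

end Pool.Agent.W2helper82.OA
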