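import Pool.Agent.W2helper82.OA.Light
import Pool.Agent.W2helper75.OA.P11
import Pool.Agent.W2helper75.OA.P20
import Pool.Agent.W424.AR.Order

/-!
# Assembly: the outer boundary of every limit of the perimeter of the largest cluster has almost
surely dimension `4/3`
-/

set_option autoImplicit false

namespace Pool.Agent.W2helper82.OA

open MeasureTheory Filter Topology H342L H342T H342P Pool.Agent.W424.OD
open scoped ENNReal

theorem a_finl : S_FINL :=
  s_finl (fun K hK => Pool.Agent.W424.AR.rsw K hK) (fun K hK => Pool.Agent.W424.AR.rsw_dual K hK)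
    (P11.base (Pool.Agent.Y989.FR.ACC.t_ACC Pool.Agent.Y989.FR.a_L3)
      (Pool.Agent.Y989.FR.a_THK Pool.Agent.Y989.FR.a_JR Pool.Agent.Y989.FR.a_U3))
    (P11.twol Pool.Agent.W801.AV.a_TWO (Pool.Agent.W801.AV.t_ONU Pool.Agent.W424.KI.u3))

theorem fin (sel : (n : ℕ) → Finset Plain.Edge → ℤ × ℤ)
    (γ : (n : ℕ) → Finset Plain.Edge → Curve) (hT : Pool.Agent.W822.PD.Tr sel γ) (k : ℕ → ℕ)
    (hk : Tendsto k atTop atTop) (μ : ProbabilityMeasure Curve)
    (hμ : Tendsto (fun i => lawOf (k i) (γ (k i))) atTop (𝓝 μ)) :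
    ∀ᵐ c : Curve ∂(μ : Measure Curve), dimH (oB (Set.range c.path)) = 4 / 3 :=
  P20.fin_as a_finl sel γ hT k hk μ hμ

end Pool.Agent.W2helper82.OA
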