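import Pool.Agent.Y989.FR.Defs
import Pool.Agent.H974R2.BK
import Pool.Agent.H974R2.Circ

/-!
# Outer boundaries, almost sure lower bound: definitions

Everything at `p = 1/2`.  `z` = lexicographic minimum of a macroscopic cluster of `[0,N]²`.
`g` = small length, `s` = scale (`64 g ≤ s ≤ K g`).  `og z g s = z + (3 g, 12 s)` = lower left corner
of the local box `B₀ = o + [0, s]²`.
-/

set_option autoImplicit false

namespace Pool.Agent.W2helper82.OA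

open H974 H12S Finset H984P H984N
open Pool.Agent.Y989.FR (Awy AE)

/-- constant density `1/2` -/
noncomputable abbrev ph : Edg → ℝ := fun _ => (1 / 2 : ℝ)

/-- the lattice edges with both ends in `U` -/
def GrV (U : Set Vtx) : Set Edg := {e | src e ∈ U ∧ tgt e ∈ U}

/-- `u` is lexicographically smaller than `z` -/
def Lx (z u : Vtx) : Prop := u.1 < z.1 ∨ (u.1 = z.1 ∧ u.2 < z.2)

/-- `z` is the lexicographic minimum of its cluster in `[0,N]²`, and this cluster has a vertex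
whose first coordinate is at least `z.1 + m`. -/
def Ez (N m : ℕ) (z : Vtx) (F : Finset Edg) : Prop :=
  inR 0 N 0 N z ∧ (∀ u, Reach (↑F ∩ ↑(RE 0 N 0 N)) z u → ¬ Lx z u) ∧
    ∃ w : Vtx, z.1 + m ≤ w.1 ∧ Reach (↑F ∩ ↑(RE 0 N 0 N)) z w

/-- the vertices of `[0,N]²` which are joined (in the box) to a vertex of the box smaller than `z`
(the smaller vertices of the box are included) -/
def AA (N : ℕ) (z : Vtx) (F : Finset Edg) : Set Vtx :=
  {a | ∃ l, inR 0 N 0 N l ∧ Lx z l ∧ Reach (↑F ∩ ↑(RE 0 N 0 N)) a l}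

open Classical in
/-- the edges of the box which touch `AA` -/
noncomputable def RV (N : ℕ) (z : Vtx) (F : Finset Edg) : Finset Edg :=
  (RE 0 N 0 N).filter (fun e => src e ∈ AA N z F ∨ tgt e ∈ AA N z F)

/-- `AA`, the outside of the box, and the smaller vertices -/
def ObS (N : ℕ) (z : Vtx) (F : Finset Edg) : Set Vtx :=
  {u | u ∈ AA N z F ∨ ¬ inR 0 N 0 N u ∨ Lx z u}

/-- no crossing of the annulus -/
def NoX (z : Vtx) (r R : ℕ) (F : Finset Edg) : Prop :=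
  ∀ a ∈ bdB z r, ∀ b ∈ bdB z R, ¬ Reach (↑F ∩ ↑(blk z R \ blk z r)) a b

/-- Decreasing event, evaluated for the explored edges: the explored clusters do not come close. -/
def Nice (z : Vtx) (g s : ℕ) (F : Finset Edg) : Prop :=
  NoX z (2 * s) (4 * s) F ∧ NoX z (20 * s) (40 * s) F ∧
  ¬ LRc z.1 (z.1 + g) (z.2 + 2 * s) (z.2 + 40 * s) F ∧
  ¬ LRc z.1 (z.1 + g) (z.2 - 40 * s) (z.2 - 2 * s) F ∧
  ∀ k : ℕ, k = 5 ∨ k = 7 ∨ k = 15 ∨ k = 17 →
    ¬ TBc z.1 (z.1 + g) (z.2 + k * s) (z.2 + (k + 1) * s) F ∧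
    ¬ TBc z.1 (z.1 + g) (z.2 - (k + 1) * s) (z.2 - k * s) F

/-- What the exploration gives for the set `Ob` of observed vertices around `z` at scale `s`. -/
structure ObOk (z : Vtx) (g s : ℕ) (Ob : Set Vtx) : Prop where
  lft : ∀ u : Vtx, u.1 < z.1 → u ∈ Ob
  bot : ∀ u : Vtx, u.2 < 0 → u ∈ Ob
  nz : z ∉ Ob
  fre : ∀ u : Vtx, 4 * (s : ℤ) ≤ sd u z → sd u z ≤ 20 * s → z.1 + g < u.1 → 0 ≤ u.2 → u ∉ Ob
  top : ∀ a : ℕ, a = 6 * s ∨ a = 16 * s → ∀ u ∈ Ob,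
    inR (z.1 - s) (z.1 + a + s) (z.2 + a) (z.2 + a + s) u →
    ∃ h : ℤ, z.2 + a - s ≤ h ∧ h ≤ z.2 + a + 2 * s ∧
      Reach (GrV (Ob ∩ {w | inR (z.1 - s) (z.1 + a + s) (z.2 + a - s) (z.2 + a + 2 * s) w})) u
        (z.1 - 1, h)
  low : ∀ a : ℕ, a = 6 * s ∨ a = 16 * s → ∀ u ∈ Ob,
    inR (z.1 - s) (z.1 + a + s) (z.2 - a - s) (z.2 - a) u → 0 ≤ u.2 →
    ∃ h : ℤ, z.2 - a - 2 * s ≤ h ∧ h ≤ z.2 - a + s ∧
      Reach (GrV (Ob ∩ {w | inR (z.1 - s) (z.1 + a + s) (z.2 - a - 2 * s) (z.2 - a + s) w})) u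
        (z.1 - 1, h)

/-- Half annulus (right half) at distance `a` to `a + s`. -/
structure Band (z : Vtx) (s a : ℕ) (H : Finset Edg) : Prop where
  t : LRc (z.1 - s) (z.1 + a + s) (z.2 + a) (z.2 + a + s) H
  u : TBc (z.1 + a) (z.1 + a + s) z.2 (z.2 + a + s) H
  l : TBc (z.1 + a) (z.1 + a + s) (z.2 - a - s) (z.2 + 2 * s) H
  b : LRc (z.1 - s) (z.1 + a + s) (z.2 - a - s) (z.2 - a) H

/-- the edges of the half annulus -/
noncomputable def bandE (z : Vtx) (s a : ℕ) : Finset Edg :=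
  RE (z.1 - s) (z.1 + a + s) (z.2 + a) (z.2 + a + s) ∪
  (RE (z.1 + a) (z.1 + a + s) (z.2 - a - s) (z.2 + a + s) ∪
  RE (z.1 - s) (z.1 + a + s) (z.2 - a - s) (z.2 - a))

/-- the edges of the rectangle of the connection `κ` -/
noncomputable def kapE (z : Vtx) (s : ℕ) : Finset Edg :=
  RE (z.1 + 5 * s) (z.1 + 18 * s) z.2 (z.2 + 2 * s)

/-- origin of the local box -/
def og (z : Vtx) (g s : ℕ) : Vtx := (z.1 + 3 * g, z.2 + 12 * s)

/-- Crossings around the local box `o + [0, s]²` (`c` = height of the window on the left side). -/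
structure Tht (o : Vtx) (g s c : ℕ) (F : Finset Edg) : Prop where
  top : LRc (o.1 - g) (o.1 + 2 * s) (o.2 + s + 1) (o.2 + 2 * s) F
  bot : LRc (o.1 - g) (o.1 + 2 * s) (o.2 - s) (o.2 - 1) F
  rgt : TBc (o.1 + s + 1) (o.1 + 2 * s) (o.2 - 2 * s) (o.2 + 7 * s) F
  lt : TBc (o.1 - g) (o.1 - 1) (o.2 + c + 4 * g) (o.2 + 2 * s) F
  lb : TBc (o.1 - g) (o.1 - 1) (o.2 - s) (o.2 + c - 4 * g) F

/-- All the crossings of the scale `s`. -/
structure LamEv (z : Vtx) (g s c : ℕ) (H : Finset Edg) : Prop where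
  b6 : Band z s (6 * s) H
  b16 : Band z s (16 * s) H
  kap : LRc (z.1 + 5 * s) (z.1 + 18 * s) z.2 (z.2 + 2 * s) H
  tht : Tht (og z g s) g s c H

/-- the edges of the local box -/
noncomputable def B0 (o : Vtx) (s : ℕ) : Finset Edg := RE o.1 (o.1 + s) o.2 (o.2 + s)

/-- the inner edges: local box and corridor -/
noncomputable def IE (o : Vtx) (g s c : ℕ) : Finset Edg :=
  B0 o s ∪ RE (o.1 - 5 * g) (o.1 + 3 * g) (o.2 + c - 3 * g) (o.2 + c + 3 * g)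

/-- vertices of `B₀` of depth at least `g` -/
def Deep (o : Vtx) (g s : ℕ) (d : Vtx) : Prop :=
  inR (o.1 + g) (o.1 + s - g) (o.2 + g) (o.2 + s - g) d

/-- `d` is joined to the boundary of `B₀` inside `B₀` -/
def Dang (o : Vtx) (s : ℕ) (F : Finset Edg) (d : Vtx) : Prop :=
  ∃ a, inR o.1 (o.1 + s) o.2 (o.2 + s) a ∧
    (a.1 = o.1 ∨ a.1 = o.1 + s ∨ a.2 = o.2 ∨ a.2 = o.2 + s) ∧ Reach (↑F ∩ ↑(B0 o s)) d a

/-- `v` lies in the central part of `B₀` -/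
def Cen (o : Vtx) (s : ℕ) (v : Vtx) : Prop :=
  8 * |2 * (v.1 - o.1) - s| ≤ s ∧ 8 * |2 * (v.2 - o.2) - s| ≤ s

/-- Inner event (looks at the edges of `IE` only): a thick path from `v` to the window, the walls of
the corridor, and no dangerous vertex near the window. -/
structure InEv (o : Vtx) (g s c M B : ℕ) (v : Vtx) (F : Finset Edg) : Prop where
  pth : ∃ x ∈ bdB v 2, Reach {e | e ∈ RE (o.1 + 2 * g) (o.1 + s - 2 * g) (o.2 + 2 * g)
      (o.2 + s - 2 * g) ∧ e ∉ blk v 2 ∧ ∀ d, Dang o s F d → Deep o g s d →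
      Awy M B (2 * s) v d (src e) ∧ Awy M B (2 * s) v d (tgt e)} x (o.1 + 2 * g, o.2 + c)
  wu : ¬ TBc (o.1 - 5 * g) (o.1 + 3 * g) (o.2 + c + 2 * g) (o.2 + c + 3 * g) F
  wl : ¬ TBc (o.1 - 5 * g) (o.1 + 3 * g) (o.2 + c - 3 * g) (o.2 + c - 2 * g) F
  nod : ∀ d, Dang o s F d → Deep o g s d → ¬ (d.1 ≤ o.1 + 3 * g ∧ |d.2 - (o.2 + c)| ≤ 3 * g)

/-- the zone near the window -/
def AV (o : Vtx) (g c : ℕ) (u : Vtx) : Prop :=
  inR (o.1 - 8 * g) (o.1 + 3 * g) (o.2 + c - 8 * g) (o.2 + c + 8 * g) u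

/-- Outer event: `v` is joined to the boundary of a larger box by a path which avoids `AV`. -/
def OutEv (o : Vtx) (g s c : ℕ) (v : Vtx) (F : Finset Edg) : Prop :=
  ∃ w : Vtx, inR (o.1 - g) (o.1 + 2 * s) (o.2 - s) (o.2 + 2 * s) w ∧
    (w.1 = o.1 - g ∨ w.1 = o.1 + 2 * s ∨ w.2 = o.2 - s ∨ w.2 = o.2 + 2 * s) ∧
    Reach {e | e ∈ F ∧ e ∈ RE (o.1 - g) (o.1 + 2 * s) (o.2 - s) (o.2 + 2 * s) ∧
      ¬ AV o g c (src e) ∧ ¬ AV o g c (tgt e)} v w

/-- energy -/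
noncomputable def Enr (t : ℝ) (V : Finset Vtx) : ℝ :=
  ∑ v ∈ V, ∑ w ∈ V, ((max (sd v w) 1 : ℤ) : ℝ) ^ (-t)

/-- Many vertices of the centre of `B₀` have `InEv ∧ OutEv`. -/
def RichLoc (o : Vtx) (g s c M B : ℕ) (c0 E0 t : ℝ) (F : Finset Edg) : Prop :=
  ∃ V : Finset Vtx, (∀ v ∈ V, Cen o s v ∧ InEv o g s c M B v F ∧ OutEv o g s c v F) ∧
    c0 * (s : ℝ) ^ (4 / 3 : ℝ) ≤ (V.card : ℝ) ∧ Enr t V ≤ E0 * (s : ℝ) ^ (8 / 3 - t)

/-- Thick path from distance `2` to distance `k` of `w`, which keeps away from `W`.  (Same as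
`Pool.Agent.W2helper75.OB.Thk`.) -/
def Thk (M B k : ℕ) (w : Vtx) (W : Set Vtx) : Prop :=
  ∃ x ∈ bdB w 2, ∃ y ∈ bdB w k,
    Reach {e | e ∈ AE w 2 k ∧ (∀ c ∈ W, Awy M B k w c (src e)) ∧
      ∀ c ∈ W, Awy M B k w c (tgt e)} x y

/-- The set `C` (a cluster) has many vertices from which thick paths start. -/
def RichOut (N M B : ℕ) (c0 E0 t : ℝ) (C : Set Vtx) : Prop :=
  ∃ V : Finset Vtx, (∀ v ∈ V, v ∈ C ∧ Thk M B (2 * N) v C) ∧
    c0 * (N : ℝ) ^ (4 / 3 : ℝ) ≤ (V.card : ℝ) ∧ Enr t V ≤ E0 * (N : ℝ) ^ (8 / 3 - t)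

/-- the cluster of `v` in the box -/
def Clu (N : ℕ) (v : Vtx) (F : Finset Edg) : Set Vtx := {u | Reach (↑F ∩ ↑(RE 0 N 0 N)) v u}

/-- light form of the event `E s v` (`W801.AV.E`), as a property of the cluster `W` of `v` in
`[0,s]²`: `v` is accessible and `W` touches the boundary -/
def EL (s : ℕ) (v : Vtx) (W : Set Vtx) : Prop :=
  v ∈ W ∧ (∃ p, Adj Set.univ v p ∧ p ∉ W ∧ ∃ q, ¬ inR 0 s 0 s q ∧
    Reach {e | src e ∉ W ∧ tgt e ∉ W} p q) ∧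
  ∃ z ∈ W, z.1 = 0 ∨ z.1 = s ∨ z.2 = 0 ∨ z.2 = s

/-- the cluster of `v` in the ball of radius `128 s` -/
def KH (s : ℕ) (v : Vtx) (F : Finset Edg) : Set Vtx := {u | Reach (↑F ∩ ↑(blk v (128 * s))) v u}

/-- Base event (origin `(0,0)`), without window: `v` is joined to distance `128 s`, and a thick path
of length `2 s` avoids its cluster. -/
def BaseEv (M B s : ℕ) (v : Vtx) (F : Finset Edg) : Prop :=
  EL s v (Clu s v F) ∧ (∃ w ∈ bdB v (128 * s), w ∈ KH s v F) ∧ Thk M B (2 * s) v (KH s v F)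

/-- `BaseEv`, and the thick path leaves the box `[2g, s-2g]²` through its left side. -/
def ExL (g s M B : ℕ) (v : Vtx) (F : Finset Edg) : Prop :=
  EL s v (Clu s v F) ∧ (∃ w ∈ bdB v (128 * s), w ∈ KH s v F) ∧
  ∃ x ∈ bdB v 2, ∃ h : ℤ, 2 * g ≤ h ∧ h ≤ s - 2 * g ∧
    Reach {e | e ∈ RE (2 * g) (s - 2 * g) (2 * g) (s - 2 * g) ∧ e ∉ blk v 2 ∧
      ∀ d ∈ KH s v F, Awy M B (2 * s) v d (src e) ∧ Awy M B (2 * s) v d (tgt e)} x (2 * g, h)

/-- The thick path leaves `[2g, s-2g]²` through its left side and goes to `(2g, c)`; the cluster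
stays away from the window. -/
structure BaseL (g s c M B : ℕ) (v : Vtx) (F : Finset Edg) : Prop where
  el : EL s v (Clu s v F)
  far : ∃ w ∈ bdB v (128 * s), w ∈ KH s v F
  pth : ∃ x ∈ bdB v 2, Reach {e | e ∈ RE (2 * g) (s - 2 * g) (2 * g) (s - 2 * g) ∧ e ∉ blk v 2 ∧
      ∀ d ∈ KH s v F, Awy M B (2 * s) v d (src e) ∧ Awy M B (2 * s) v d (tgt e)} x (2 * g, c)
  win : ∀ d ∈ KH s v F, ¬ AV (0, 0) g c d

open Classical in
/-- the edges of the ball of radius `128 s` which touch `KH` -/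
noncomputable def RK (s : ℕ) (v : Vtx) (F : Finset Edg) : Finset Edg :=
  (blk v (128 * s)).filter (fun e => src e ∈ KH s v F ∨ tgt e ∈ KH s v F)

/-- the box as a finite set of vertices -/
noncomputable def BX (N : ℕ) : Finset Vtx := Finset.Icc (0 : ℤ) N ×ˢ Finset.Icc (0 : ℤ) N

/-- the centre of the box (same as `W801.AV.Ctr s`) -/
noncomputable def CtrS (s : ℕ) : Finset Vtx :=
  (BX s).filter (fun v => 8 * |2 * v.1 - s| ≤ s ∧ 8 * |2 * v.2 - s| ≤ s)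

/-- Decreasing event of the fresh configuration: no dangerous vertices in `B₀`, walls. -/
structure DecAll (g s c : ℕ) (G : Finset Edg) : Prop where
  nr : ∀ d, Dang (0, 0) s G d → ¬ Deep (0, 0) g s d
  wu : ¬ TBc (-5 * g) (3 * g) (c + 2 * g) (c + 3 * g) G
  wl : ¬ TBc (-5 * g) (3 * g) (c - 3 * g) (c - 2 * g) G

end Pool.Agent.W2helper82.OA
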