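import Pool.Agent.W2helper82.OA.MZ
import Pool.Agent.W2helper93.OA.P1
import Pool.Agent.W2helper28.OA.P3
import Pool.Agent.W2helper93.OA.P4
import Pool.Agent.W2helper89.OA.P5
import Pool.Agent.W2helper93.OA.P5b
import Pool.Agent.W2helper92.OA.P6
import Pool.Agent.W2helper20.OA.P7
import Pool.Agent.W2helper71.OA.P8
import Pool.Agent.W2helper89.OA.P9
import Pool.Agent.W2helper89.OA.P10
import Pool.Agent.W2helper17.OA.P12
import Pool.Agent.W2helper56.OA.P13
import Pool.Agent.W2helper93.OA.P14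
import Pool.Agent.W2helper71.OA.P15
import Pool.Agent.W2helper64.OA.P16
import Pool.Agent.W2helper64.OA.P17
import Pool.Agent.W2helper20.OA.P19

/-!
# Assembly (light part): `S_FINL` from RSW, the one-point and the two-point bound
-/

set_option autoImplicit false

namespace Pool.Agent.W2helper82.OA

theorem s_mainz (hR : S_RSW) (hRD : S_RSWD) (hBASE : S_BASE) (hTWOL : S_TWOL) : S_MAINZ :=
  MZ.mainz P1.s_dec1 P1.s_ite P1.s_tri (P4.s_nice hRD) P5.s_ndet P5b.expOk (P7.s_t2 P6.s_t1)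
    (P8.lamok hR) P9.s_con P10.s_cor
    (P17.s_loc P1.s_dec1 hBASE hTWOL P12.s_sym4 P13.s_win P14.condOk (P15.decok hRD) P16.rlOk)
    P16.rlOk

theorem s_finl (hR : S_RSW) (hRD : S_RSWD) (hBASE : S_BASE) (hTWOL : S_TWOL) : S_FINL :=
  P19.s_finl (s_mainz hR hRD hBASE hTWOL) (P3.s_cnt hRD)

end Pool.Agent.W2helper82.OA
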