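import Pool.Agent.W2helper82.OA.Stm

/-!
# Main estimate for one extremal vertex
-/

set_option autoImplicit false

namespace Pool.Agent.W2helper82.OA.MZ

open H974 H12S Finset H984P H984N
open Pool.Agent.Y989.FR (Awy AE)

theorem okh : Ok (ph : Edg → ℝ) := fun _ => ⟨by norm_num, by norm_num⟩

theorem NoX.anti {z : Vtx} {r R : ℕ} {F G : Finset Edg} (h : F ⊆ G) (hG : NoX z r R G) :
    NoX z r R F := by
  intro a ha b hb hr
  exact hG a ha b hb (hr.mono (Set.inter_subset_inter_left _ (by exact_mod_cast h)))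

theorem Nice.anti {z : Vtx} {g s : ℕ} {F G : Finset Edg} (h : F ⊆ G) (hG : Nice z g s G) :
    Nice z g s F := by
  obtain ⟨h1, h2, h3, h4, h5⟩ := hG
  exact ⟨NoX.anti h h1, NoX.anti h h2, fun k => h3 (k.mono h), fun k => h4 (k.mono h),
    fun k hk => ⟨fun q => (h5 k hk).1 (q.mono h), fun q => (h5 k hk).2 (q.mono h)⟩⟩

theorem re_blk {z : Vtx} {R : ℕ} {a b c d : ℤ} (h1 : z.1 - R ≤ a) (h2 : b ≤ z.1 + R)
    (h3 : z.2 - R ≤ c) (h4 : d ≤ z.2 + R) : RE a b c d ⊆ blk z R := by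
  unfold blk
  exact RE_subset h1 h2 h3 h4

theorem re_ann {z : Vtx} {R r : ℕ} {a b c d : ℤ} (h1 : z.1 - R ≤ a) (h2 : b ≤ z.1 + R)
    (h3 : z.2 - R ≤ c) (h4 : d ≤ z.2 + R) (h5 : z.2 + r < c) :
    RE a b c d ⊆ blk z R \ blk z r := by
  intro e he
  rw [Finset.mem_sdiff]
  refine ⟨re_blk h1 h2 h3 h4 he, ?_⟩
  unfold blk
  obtain ⟨x, y, _ | _⟩ := e
  · rw [mem_RE_false] at he ⊢
    omega
  · rw [mem_RE_true] at he ⊢
    omega

theorem reach_in {F : Set Edg} {U : Set Vtx} {a b : Vtx} (ha : a ∈ U)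
    (h : Reach (F ∩ GrV U) a b) : b ∈ U := by
  induction h with
  | refl => exact ha
  | tail _ hs _ =>
    obtain ⟨e, ⟨-, h1, h2⟩, h3 | h3⟩ := hs
    · rw [← h3.2]; exact h2
    · rw [← h3.1]; exact h1

/-- The region right of the explored vertices. -/
theorem free_reg {z : Vtx} {g s : ℕ} {Ob : Set Vtx} (hg : 2 ≤ g) (hgs : 64 * g ≤ s)
    (hz : 0 ≤ z.2) (hO : ObOk z g s Ob) {u : Vtx}
    (hu : inR ((og z g s).1 - g) ((og z g s).1 + 2 * s) ((og z g s).2 - 2 * s)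
      ((og z g s).2 + 7 * s) u) : u ∉ Ob := by
  unfold inR og at hu
  simp only at hu
  obtain ⟨⟨h1, h2⟩, h3, h4⟩ := hu
  apply hO.fre
  · unfold sd
    apply le_max_of_le_right
    rw [le_abs]
    left
    omega
  · unfold sd
    apply max_le
    · rw [abs_le]; constructor <;> omega
    · rw [abs_le]; constructor <;> omega
  · omega
  · omega

theorem re_ends {a b c d : ℤ} {e : Edg} (he : e ∈ RE a b c d) :
    inR a b c d (src e) ∧ inR a b c d (tgt e) := by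
  obtain ⟨x, y, _ | _⟩ := e
  · rw [mem_RE_false] at he
    simp only [src_mk, tgt_false, inR]
    omega
  · rw [mem_RE_true] at he
    simp only [src_mk, tgt_true, inR]
    omega

theorem detm (hT2 : S_T2) (hCON : S_CON) (hCOR : S_COR) {z : Vtx} {g s c M B N K : ℕ}
    {Ob : Set Vtx} {G : Finset Edg} {c0 E0 t : ℝ} (hg : 2 ≤ g) (hgs : 64 * g ≤ s)
    (hsK : s ≤ K * g) (hsN : s ≤ N) (hB : 1 ≤ B) (hc : 10 * g ≤ c) (hc' : c + 10 * g ≤ s)
    (hz : 0 ≤ z.2) (hO : ObOk z g s Ob) (hL : LamEv z g s c G)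
    (hR : RichLoc (og z g s) g s c M B c0 E0 t G) {w : Vtx} (hw : 20 * (s : ℤ) ≤ sd w z)
    (hr : Reach (↑G ∩ GrV Obᶜ) z w) :
    ∃ V : Finset Vtx, (∀ v ∈ V, Reach (↑G ∩ GrV Obᶜ) z v ∧
      Thk (M + 4 * K + 4) B (2 * N) v {u | Reach (↑G ∩ GrV Obᶜ) z u}) ∧
      c0 * (s : ℝ) ^ (4 / 3 : ℝ) ≤ (V.card : ℝ) ∧ Enr t V ≤ E0 * (s : ℝ) ^ (8 / 3 - t) := by
  obtain ⟨V, hV, hcard, hen⟩ := hR
  refine ⟨V, ?_, hcard, hen⟩
  intro v hv
  obtain ⟨hC, hI, hOu⟩ := hV v hv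
  obtain ⟨-, hT⟩ := hT2 z g s c Ob G (by omega) hgs hc hc' hz hO hL w hw hr
  obtain ⟨x1, x2, hx1, hx2, hx⟩ := hL.tht.rgt
  have i1 : inR ((og z g s).1 + s + 1) ((og z g s).1 + 2 * s) ((og z g s).2 - 2 * s)
      ((og z g s).2 + 7 * s) (x1, (og z g s).2 - 2 * s) := ⟨hx1, by simp only; omega⟩
  have i2 : inR ((og z g s).1 + s + 1) ((og z g s).1 + 2 * s) ((og z g s).2 - 2 * s)
      ((og z g s).2 + 7 * s) (x2, (og z g s).2 + 7 * s) := ⟨hx2, by simp only; omega⟩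
  have hzp := hT _ _ rfl rfl i1 i2 hx
  have hvp := hCON (og z g s) g s c v G hg hgs hc hc' hC hOu hL.tht _ _ rfl rfl i1 i2 hx
  have hvp' : Reach (↑G ∩ GrV Obᶜ) v (x1, (og z g s).2 - 2 * s) := by
    refine hvp.mono ?_
    rintro e ⟨h1, h2⟩
    have h3 := re_ends (Finset.mem_coe.1 h2)
    exact ⟨h1, free_reg hg hgs hz hO h3.1, free_reg hg hgs hz hO h3.2⟩
  refine ⟨hzp.trans hvp'.symm, ?_⟩
  refine hCOR z g s c M B N K (↑G ∩ GrV Obᶜ) G v (by omega) hgs hsK hsN hB hc hc' hC hI ?_ ?_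
  · intro u hu
    have h1 : u ∈ Obᶜ := reach_in hO.nz hu
    by_contra h2
    exact h1 (hO.lft u (by omega))
  · rintro e ⟨⟨h1, -⟩, -⟩
    exact h1

theorem rich_up {N s κ M B : ℕ} {c0 E0 t : ℝ} {C : Set Vtx} (hs : 1 ≤ s) (hsN : s ≤ N)
    (hN : N ≤ κ * s) (hκ : 1 ≤ κ) (hc0 : 0 < c0) (hE0 : 0 < E0) (ht : t < 4 / 3)
    (h : ∃ V : Finset Vtx, (∀ v ∈ V, v ∈ C ∧ Thk M B (2 * N) v C) ∧
      c0 * (s : ℝ) ^ (4 / 3 : ℝ) ≤ (V.card : ℝ) ∧ Enr t V ≤ E0 * (s : ℝ) ^ (8 / 3 - t)) :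
    RichOut N M B (c0 / (κ : ℝ) ^ (4 / 3 : ℝ)) E0 t C := by
  obtain ⟨V, hV, h1, h2⟩ := h
  have hκ0 : (0:ℝ) < κ := by exact_mod_cast hκ
  have hs0 : (0:ℝ) < s := by exact_mod_cast hs
  refine ⟨V, hV, ?_, ?_⟩
  · refine le_trans ?_ h1
    have h3 : (N : ℝ) ^ (4 / 3 : ℝ) ≤ (κ : ℝ) ^ (4 / 3 : ℝ) * (s : ℝ) ^ (4 / 3 : ℝ) := by
      rw [← Real.mul_rpow hκ0.le hs0.le]
      apply Real.rpow_le_rpow (Nat.cast_nonneg _) _ (by norm_num)
      exact_mod_cast hN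
    have h4 : 0 < (κ : ℝ) ^ (4 / 3 : ℝ) := Real.rpow_pos_of_pos hκ0 _
    rw [div_mul_eq_mul_div, div_le_iff₀ h4]
    calc c0 * (N : ℝ) ^ (4 / 3 : ℝ) ≤ c0 * ((κ : ℝ) ^ (4 / 3 : ℝ) * (s : ℝ) ^ (4 / 3 : ℝ)) :=
          mul_le_mul_of_nonneg_left h3 hc0.le
      _ = _ := by ring
  · refine h2.trans (mul_le_mul_of_nonneg_left ?_ hE0.le)
    apply Real.rpow_le_rpow hs0.le (by exact_mod_cast hsN) (by linarith)

/-- the connection event of `z`, given the observed set -/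
def Ep (m : ℕ) (z : Vtx) (Ob : Set Vtx) (A : Finset Edg) : Prop :=
  ∃ w : Vtx, z.1 + m ≤ w.1 ∧ Reach (↑A ∩ GrV Obᶜ) z w

theorem Ep.mono {m : ℕ} {z : Vtx} {Ob : Set Vtx} {A A' : Finset Edg} (h : A ⊆ A')
    (hA : Ep m z Ob A) : Ep m z Ob A' := by
  obtain ⟨w, h1, h2⟩ := hA
  exact ⟨w, h1, h2.mono (Set.inter_subset_inter_left _ (by exact_mod_cast h))⟩

/-- the good event of a scale -/
def Gs (z : Vtx) (g s c M B : ℕ) (c0 E0 t : ℝ) (A : Finset Edg) : Prop :=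
  LamEv z g s c A ∧ RichLoc (og z g s) g s c M B c0 E0 t A

theorem ie_ann {z : Vtx} {g s c : ℕ} (hgs : 64 * g ≤ s) (hg : 2 ≤ g) (hc : 10 * g ≤ c)
    (hc' : c + 10 * g ≤ s) : IE (og z g s) g s c ⊆ blk z (20 * s) \ blk z (4 * s) := by
  unfold IE B0 og
  apply Finset.union_subset
  · apply re_ann <;> push_cast <;> omega
  · apply re_ann <;> push_cast <;> omega

theorem out_ann {z : Vtx} {g s : ℕ} (hgs : 64 * g ≤ s) (hg : 2 ≤ g) :
    RE ((og z g s).1 - 5 * g) ((og z g s).1 + 2 * s) ((og z g s).2 - s) ((og z g s).2 + 2 * s) ⊆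
      blk z (20 * s) \ blk z (4 * s) := by
  unfold og
  apply re_ann <;> push_cast <;> omega

theorem one_scale (hTRI : S_TRI) (hT2 : S_T2) (hLam : LamOk) (hRl : RlOk)
    {z : Vtx} {g s c m M B : ℕ} {Ob : Set Vtx} {c0 E0 t : ℝ} {pL p : ℝ}
    (hp : 0 ≤ p) (hg : 2 ≤ g) (hgs : 64 * g ≤ s) (hc : 10 * g ≤ c) (hc' : c + 10 * g ≤ s)
    (hz : 0 ≤ z.2) (hO : ObOk z g s Ob) (hm : 20 * s ≤ m)
    (h1 : pL ≤ Pr ph (blk z (20 * s) \ blk z (4 * s)) (LamEv z g s c))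
    (h2 : p ≤ Pr ph (blk z (20 * s) \ blk z (4 * s)) (RichLoc (og z g s) g s c M B c0 E0 t))
    (H : Finset Edg) :
    pL * p * Pr ph (blk z (20 * s) \ blk z (4 * s)) (fun A => Ep m z Ob (A ∪ H)) ≤
      Pr ph (blk z (20 * s) \ blk z (4 * s))
        (fun A => Ep m z Ob (A ∪ H) ∧ Gs z g s c M B c0 E0 t A) := by
  set Mm := blk z (20 * s) \ blk z (4 * s) with hMm
  have hI := ie_ann (z := z) hgs hg hc hc'
  have key := hTRI Mm (IE (og z g s) g s c) H (Ep m z Ob) (LamEv z g s c)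
    (RichLoc (og z g s) g s c M B c0 E0 t) hI
    (fun A A' h _ hA => Ep.mono (Finset.union_subset_union_left h) hA)
    (fun A A' h _ hA => hLam.mono z g s c A A' h hA)
    (fun A hA => ⟨fun hl => hLam.mono z g s c _ _ ?_ (hLam.loc z g s c A hg hgs hc hc' hl),
      fun hl => hLam.mono z g s c _ _ Finset.sdiff_subset hl⟩)
    ?_ (fun A A' h _ hi hA => hRl.mono _ g s c M B c0 E0 t A A' h hi hA)
  · refine le_trans ?_ key
    have h3 : 0 ≤ Pr ph Mm (fun A => Ep m z Ob (A ∪ H)) := Pr_nonneg okh _ _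
    exact mul_le_mul_of_nonneg_right (mul_le_mul h1 h2 hp (Pr_nonneg okh _ _)) h3
  · intro e he
    rw [Finset.mem_inter, Finset.mem_sdiff] at he
    rw [Finset.mem_sdiff]
    exact ⟨he.1, he.2.2⟩
  · rintro A hA ⟨w, hw1, hw2⟩ hl
    have hw3 : 20 * (s : ℤ) ≤ sd w z := by
      unfold sd
      apply le_max_of_le_left
      rw [le_abs]
      left
      have : (20 : ℤ) * s ≤ m := by exact_mod_cast hm
      omega
    obtain ⟨h5, -⟩ := hT2 z g s c Ob (A ∪ H) (by omega) hgs hc hc' hz hO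
      (hLam.mono z g s c _ _ Finset.subset_union_left hl) w hw3 hw2
    refine ⟨w, hw1, h5.mono (Set.inter_subset_inter_left _ ?_)⟩
    have : (A ∪ H) \ IE (og z g s) g s c ⊆ (A \ IE (og z g s) g s c) ∪ H := by
      intro e he
      rw [Finset.mem_sdiff, Finset.mem_union] at he
      rw [Finset.mem_union, Finset.mem_sdiff]
      rcases he.1 with h | h
      · exact Or.inl ⟨h, he.2⟩
      · exact Or.inr h
    exact_mod_cast this

/-- the scales -/
def gg (g0 j : ℕ) : ℕ := g0 * 64 ^ j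

theorem gg_le {g0 j j' : ℕ} (h : j < j') : 64 * gg g0 j ≤ gg g0 j' := by
  unfold gg
  obtain ⟨k, rfl⟩ : ∃ k, j' = j + 1 + k := ⟨j' - (j + 1), by omega⟩
  have h1 : 1 ≤ 64 ^ k := Nat.one_le_pow _ _ (by norm_num)
  calc 64 * (g0 * 64 ^ j) = g0 * 64 ^ (j + 1) * 1 := by rw [pow_succ]; ring
    _ ≤ g0 * 64 ^ (j + 1) * 64 ^ k := Nat.mul_le_mul_left _ h1
    _ = g0 * 64 ^ (j + 1 + k) := by ring

theorem gg_mono {g0 j j' : ℕ} (h : j ≤ j') : gg g0 j ≤ gg g0 j' := by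
  rcases h.eq_or_lt with rfl | h
  · exact le_rfl
  · have := gg_le (g0 := g0) h
    omega

theorem disj_ann {z : Vtx} {s s' : ℕ} (h : 20 * s ≤ 4 * s') :
    Disjoint (blk z (20 * s) \ blk z (4 * s)) (blk z (20 * s') \ blk z (4 * s')) := by
  rw [Finset.disjoint_left]
  intro e he he'
  rw [Finset.mem_sdiff] at he he'
  apply he'.2
  have : blk z (20 * s) ⊆ blk z (4 * s') := by
    unfold blk
    apply RE_subset <;> push_cast <;> omega
  exact this he.1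

theorem gs_loc (hLam : LamOk) (hRl : RlOk) {z : Vtx} {g s c M B : ℕ} {c0 E0 t : ℝ} (hg : 2 ≤ g)
    (hgs : 64 * g ≤ s) (hc : 10 * g ≤ c) (hc' : c + 10 * g ≤ s) (F : Finset Edg) :
    Gs z g s c M B c0 E0 t F ↔
      Gs z g s c M B c0 E0 t (F ∩ (blk z (20 * s) \ blk z (4 * s))) := by
  have h1 := hRl.loc (og z g s) g s c M B c0 E0 t F (blk z (20 * s) \ blk z (4 * s))
    (ie_ann hgs hg hc hc') (by
      refine (RE_subset ?_ ?_ ?_ ?_).trans (out_ann (z := z) hgs hg)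
      · omega
      · exact le_rfl
      · exact le_rfl
      · exact le_rfl)
  unfold Gs
  rw [← h1]
  constructor
  · rintro ⟨h2, h3⟩
    refine ⟨hLam.mono z g s c _ _ ?_ (hLam.loc z g s c F hg hgs hc hc' h2), h3⟩
    intro e he
    rw [Finset.mem_inter, Finset.mem_sdiff] at he
    rw [Finset.mem_inter]
    exact ⟨he.1, he.2.1⟩
  · rintro ⟨h2, h3⟩
    exact ⟨hLam.mono z g s c _ _ Finset.inter_subset_left h2, h3⟩

theorem multi (hITE : S_ITE) (hTRI : S_TRI) (hT2 : S_T2) (hLam : LamOk) (hRl : RlOk)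
    {z : Vtx} {K M B : ℕ} {c0 E0 t : ℝ} {pL p : ℝ} (hpL : 0 ≤ pL) (hpL1 : pL ≤ 1) (hp : 0 ≤ p)
    (hp1 : p ≤ 1) (hK : 64 ≤ K) {S : Finset Edg} {m J L g0 : ℕ} {Ob : Set Vtx} (hg0 : 2 ≤ g0)
    (hz : 0 ≤ z.2) (l : ℕ → ℕ) (hl : ∀ b < J, l b < L) (cw : ℕ → ℕ)
    (hcw : ∀ b < J, 10 * gg g0 (b * L + l b) ≤ cw (gg g0 (b * L + l b)) ∧
      cw (gg g0 (b * L + l b)) + 10 * gg g0 (b * L + l b) ≤ K * gg g0 (b * L + l b))
    (hO : ∀ b < J, ObOk z (gg g0 (b * L + l b)) (K * gg g0 (b * L + l b)) Ob)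
    (hm : ∀ b < J, 20 * (K * gg g0 (b * L + l b)) ≤ m)
    (h1 : ∀ b < J, pL ≤ Pr ph (blk z (20 * (K * gg g0 (b * L + l b))) \
      blk z (4 * (K * gg g0 (b * L + l b)))) (LamEv z (gg g0 (b * L + l b))
        (K * gg g0 (b * L + l b)) (cw (gg g0 (b * L + l b)))))
    (h2 : ∀ b < J, p ≤ Pr ph (blk z (20 * (K * gg g0 (b * L + l b))) \
      blk z (4 * (K * gg g0 (b * L + l b)))) (RichLoc (og z (gg g0 (b * L + l b))
        (K * gg g0 (b * L + l b))) (gg g0 (b * L + l b))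
        (K * gg g0 (b * L + l b)) (cw (gg g0 (b * L + l b))) M B c0 E0 t))
    (hS : ∀ b < J, blk z (20 * (K * gg g0 (b * L + l b))) ⊆ S) :
    Pr ph S (fun G => Ep m z Ob G ∧ ∀ b < J, ¬ Gs z (gg g0 (b * L + l b))
      (K * gg g0 (b * L + l b)) (cw (gg g0 (b * L + l b))) M B c0 E0 t G) ≤
      (1 - pL * p) ^ J * Pr ph S (Ep m z Ob) := by
  have hgp : ∀ j, 2 ≤ gg g0 j := by
    intro j
    have := gg_mono (g0 := g0) (Nat.zero_le j)
    have h0 : gg g0 0 = g0 := by simp [gg]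
    omega
  have hgs : ∀ j, 64 * gg g0 j ≤ K * gg g0 j := fun j => Nat.mul_le_mul_right _ hK
  refine hITE S J (fun b => blk z (20 * (K * gg g0 (b * L + l b))) \
      blk z (4 * (K * gg g0 (b * L + l b)))) (Ep m z Ob)
    (fun b G => Gs z (gg g0 (b * L + l b))
      (K * gg g0 (b * L + l b)) (cw (gg g0 (b * L + l b))) M B c0 E0 t G) (pL * p)
    (mul_nonneg hpL hp) (mul_le_one₀ hpL1 hp hp1) ?_ ?_ ?_ ?_
  · intro b hb
    exact Finset.sdiff_subset.trans (hS b hb)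
  · have key : ∀ i < J, ∀ j < J, i < j → Disjoint
        (blk z (20 * (K * gg g0 (i * L + l i))) \ blk z (4 * (K * gg g0 (i * L + l i))))
        (blk z (20 * (K * gg g0 (j * L + l j))) \ blk z (4 * (K * gg g0 (j * L + l j)))) := by
      intro i hi j hj hij
      apply disj_ann
      have h3 : i * L + l i < j * L + l j := by
        have h4 := hl i hi
        have h5 : (i + 1) * L ≤ j * L := Nat.mul_le_mul_right _ hij
        have h6 : (i + 1) * L = i * L + L := by ring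
        omega
      have h7 := Nat.mul_le_mul_left K (gg_le (g0 := g0) h3)
      have h8 : K * (64 * gg g0 (i * L + l i)) = 64 * (K * gg g0 (i * L + l i)) := by ring
      omega
    intro i hi j hj hij
    rcases lt_or_gt_of_ne hij with h | h
    · exact key i hi j hj h
    · exact (key j hj i hi h).symm
  · intro b hb F _
    exact gs_loc hLam hRl (hgp _) (hgs _) (hcw b hb).1 (hcw b hb).2 F
  · intro b hb H _
    exact one_scale hTRI hT2 hLam hRl hp (hgp _) (hgs _) (hcw b hb).1 (hcw b hb).2 hz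
      (hO b hb) (hm b hb) (h1 b hb) (h2 b hb) H

theorem decP (hDEC : S_DEC1) {S : Finset Edg} {R : Finset Edg → Finset Edg}
    {P : Finset Edg → Finset Edg → Prop} (h1 : ∀ F, F ⊆ S → R F ⊆ S)
    (h2 : ∀ F F', F ⊆ S → F' ⊆ S → F ∩ R F = F' ∩ R F → R F' = R F)
    (h3 : ∀ F F' X, F ⊆ S → F' ⊆ S → F ∩ R F = F' ∩ R F → (P F X ↔ P F' X)) :
    Pr ph S (fun F => P F (F \ R F)) = Ex ph S (fun F => Pr ph S (fun G => P F (G \ R F))) :=
  hDEC S R (fun F X => ind (P F X)) h1 h2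
    (fun F F' X hF hF' h => ind_congr (h3 F F' X hF hF' h))

theorem first_term (hDEC : S_DEC1) (hE : ExpOk) {N m : ℕ} {z : Vtx} {S : Finset Edg}
    (hS : RE 0 N 0 N ⊆ S) {Bad : Finset Edg → Prop} (hB : ∀ F G, F ⊆ G → Bad F → Bad G) {η : ℝ}
    (hη : Pr ph S Bad ≤ η) :
    Pr ph S (fun F => Ez N m z F ∧ Bad (F ∩ RV N z F)) ≤ η * Pr ph S (Ez N m z) := by
  obtain ⟨R, r1, r2, r3, r4⟩ := hE.fst N m z
  have e1 : Pr ph S (fun F => Ez N m z F ∧ Bad (F ∩ RV N z F)) ≤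
      Pr ph S (fun F => Ez N m z F ∧ Bad (F \ R F)) :=
    Pr_mono okh (fun F _ h => ⟨h.1, hB _ _ (r4 F h.1) h.2⟩)
  have e2 := decP hDEC (S := S) (R := R) (P := fun F X => Ez N m z F ∧ Bad X)
    (fun F _ => (r1 F).trans hS) (fun F F' _ _ h => r2 F F' h)
    (fun F F' X _ _ h => and_congr (r3 F F' h) Iff.rfl)
  refine e1.trans (e2.le.trans ?_)
  have e3 : Ex ph S (fun F => Pr ph S (fun G => Ez N m z F ∧ Bad (G \ R F))) ≤
      Ex ph S (fun F => η * ind (Ez N m z F)) := by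
    apply Ex_mono okh
    intro F _
    by_cases h : Ez N m z F
    · rw [ind_of h, mul_one]
      refine le_trans (Pr_mono okh ?_) hη
      intro G _ hG
      exact hB _ _ Finset.sdiff_subset hG.2
    · rw [ind_not_of h, mul_zero]
      have : Pr ph S (fun G => Ez N m z F ∧ Bad (G \ R F)) ≤ Pr ph S (fun _ => False) :=
        Pr_mono okh (fun G _ hG => h hG.1)
      refine this.trans (le_of_eq ?_)
      unfold Pr
      rw [Ex_congr (g := fun _ => 0) (fun F _ => ind_not_of (fun h => h)), Ex_const]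
  refine e3.trans (le_of_eq ?_)
  rw [Ex_mul_left]
  rfl

/-- second term -/
theorem second_term (hDEC : S_DEC1) (hE : ExpOk) {N m : ℕ} {z : Vtx} {S : Finset Edg}
    (hS : RE 0 N 0 N ⊆ S) {Nc : Finset Edg → Prop} {RO : Set Vtx → Prop} {η : ℝ}
    (hin : inR 0 N 0 N z)
    (hη : ∀ F, F ⊆ S → z ∉ AA N z F → Nc (F ∩ RV N z F) →
      Pr ph S (fun G => Ep m z (ObS N z F) G ∧
        ¬ RO {u | Reach (↑G ∩ GrV (ObS N z F)ᶜ) z u}) ≤ η * Pr ph S (Ep m z (ObS N z F)))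
    (hη0 : 0 ≤ η) :
    Pr ph S (fun F => Ez N m z F ∧ Nc (F ∩ RV N z F) ∧ ¬ RO (Clu N z F)) ≤
      η * Pr ph S (Ez N m z) := by
  classical
  have st : ∀ F F' : Finset Edg, F ∩ RV N z F = F' ∩ RV N z F → RV N z F' = RV N z F ∧
      AA N z F' = AA N z F := hE.rv N z
  have ob : ∀ F F' : Finset Edg, F ∩ RV N z F = F' ∩ RV N z F → ObS N z F' = ObS N z F := by
    intro F F' h
    unfold ObS
    rw [(st F F' h).2]
  have rvs : ∀ F, RV N z F ⊆ S := by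
    intro F
    unfold RV
    exact (Finset.filter_subset _ _).trans hS
  have epr : ∀ F G : Finset Edg, Ep m z (ObS N z F) (G \ RV N z F) ↔ Ep m z (ObS N z F) G := by
    intro F G
    unfold Ep
    rw [hE.gr]
  have a1 : Pr ph S (fun F => Ez N m z F ∧ Nc (F ∩ RV N z F) ∧ ¬ RO (Clu N z F)) ≤
      Pr ph S (fun F => (z ∉ AA N z F ∧ Nc (F ∩ RV N z F)) ∧
        Ep m z (ObS N z F) (F \ RV N z F) ∧
        ¬ RO {u | Reach (↑(F \ RV N z F) ∩ GrV (ObS N z F)ᶜ) z u}) := by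
    apply Pr_mono okh
    rintro F _ ⟨h1, h2, h3⟩
    obtain ⟨k1, k2, k3⟩ := (hE.ez N m z F).1 h1
    refine ⟨⟨k2, h2⟩, k3, ?_⟩
    rwa [← hE.cl N z F hin k2]
  have a2 := decP hDEC (S := S) (R := RV N z) (P := fun F X =>
    (z ∉ AA N z F ∧ Nc (F ∩ RV N z F)) ∧ Ep m z (ObS N z F) X ∧
      ¬ RO {u | Reach (↑X ∩ GrV (ObS N z F)ᶜ) z u}) (fun F _ => rvs F)
    (fun F F' _ _ h => (st F F' h).1)
    (by
      intro F F' X _ _ h
      simp only [(st F F' h).1, (st F F' h).2, ob F F' h, h])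
  have a3 := decP hDEC (S := S) (R := RV N z) (P := fun F X =>
    z ∉ AA N z F ∧ Ep m z (ObS N z F) X) (fun F _ => rvs F)
    (fun F F' _ _ h => (st F F' h).1)
    (by
      intro F F' X _ _ h
      simp only [(st F F' h).2, ob F F' h])
  have a4 : Pr ph S (fun F => z ∉ AA N z F ∧ Ep m z (ObS N z F) (F \ RV N z F)) =
      Pr ph S (Ez N m z) := by
    apply Pr_congr
    intro F _
    rw [hE.ez N m z F]
    exact ⟨fun h => ⟨hin, h.1, h.2⟩, fun h => ⟨h.2.1, h.2.2⟩⟩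
  rw [← a4, a3, ← Ex_mul_left]
  refine a1.trans (a2.le.trans ?_)
  apply Ex_mono okh
  intro F hF
  by_cases hc : z ∉ AA N z F ∧ Nc (F ∩ RV N z F)
  · refine le_trans (Pr_mono okh ?_) ((hη F hF hc.1 hc.2).trans
      (mul_le_mul_of_nonneg_left (Pr_mono okh ?_) hη0))
    · rintro G _ ⟨-, h1, h2⟩
      refine ⟨(epr F G).1 h1, ?_⟩
      rwa [hE.gr] at h2
    · intro G _ hG
      exact ⟨hc.1, (epr F G).2 hG⟩
  · have h0 : Pr ph S (fun G => (z ∉ AA N z F ∧ Nc (F ∩ RV N z F)) ∧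
        Ep m z (ObS N z F) (G \ RV N z F) ∧
      ¬ RO {u | Reach (↑(G \ RV N z F) ∩ GrV (ObS N z F)ᶜ) z u}) ≤ 0 := by
      have : Pr ph S (fun G => (z ∉ AA N z F ∧ Nc (F ∩ RV N z F)) ∧
        Ep m z (ObS N z F) (G \ RV N z F) ∧
      ¬ RO {u | Reach (↑(G \ RV N z F) ∩ GrV (ObS N z F)ᶜ) z u}) ≤
          Pr ph S (fun _ => False) := Pr_mono okh (fun G _ hG => hc hG.1)
      refine this.trans (le_of_eq ?_)
      unfold Pr
      rw [Ex_congr (g := fun _ => 0) (fun F _ => ind_not_of (fun h => h)), Ex_const]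
    exact h0.trans (mul_nonneg hη0 (Pr_nonneg okh _ _))

theorem inter_re (N : ℕ) (F : Finset Edg) :
    (↑(F ∩ RE 0 N 0 N) ∩ ↑(RE 0 N 0 N) : Set Edg) = ↑F ∩ ↑(RE 0 N 0 N) := by
  rw [Finset.coe_inter, Set.inter_assoc, Set.inter_self]

theorem ez_loc (N m : ℕ) (z : Vtx) (F : Finset Edg) :
    Ez N m z F ↔ Ez N m z (F ∩ RE 0 N 0 N) := by
  unfold Ez
  rw [inter_re]

theorem clu_loc (N : ℕ) (z : Vtx) (F : Finset Edg) :
    Clu N z F = Clu N z (F ∩ RE 0 N 0 N) := by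
  unfold Clu
  rw [inter_re]

theorem mainz (hDEC : S_DEC1) (hITE : S_ITE) (hTRI : S_TRI) (hNICE : S_NICE) (hND : S_NDET)
    (hE : ExpOk) (hT2 : S_T2) (hLam : LamOk) (hCON : S_CON) (hCOR : S_COR) (hLOC : S_LOC)
    (hRl : RlOk) : S_MAINZ := by
  intro t ht ht1 K' η hK' hη
  obtain ⟨K, M, B, g1, c0, E0, p, hK, hB, hc0, hE0, hp, hloc⟩ := hLOC t ht ht1
  obtain ⟨pL, hpL, hlam⟩ := hLam.pr K hK
  choose! cw hcw1 hcw2 hcw3 using hloc
  -- constants
  obtain ⟨J, hJ⟩ := exists_pow_lt_of_lt_one (half_pos hη)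
    (show 1 - min pL 1 * min p 1 < 1 by
      have : 0 < min pL 1 * min p 1 := mul_pos (lt_min hpL one_pos) (lt_min hp one_pos)
      linarith)
  obtain ⟨L, hL, hnice⟩ := hNICE K hK (η / 2) J (half_pos hη)
  set D : ℕ := 82 * K * 64 ^ (J * L) with hD
  have hD0 : 0 < D := by positivity
  set G1 : ℕ := max g1 2 with hG1
  refine ⟨M + 4 * K + 4, B, K' * (D * G1), c0 / ((2 * K' * D : ℕ) : ℝ) ^ (4 / 3 : ℝ), E0, hB,
    by positivity, hE0, ?_⟩
  intro N m z hN1 hNm hmN hz2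
  have hm1 : D * G1 ≤ m := Nat.le_of_mul_le_mul_left (hN1.trans hNm) hK'
  set g0 : ℕ := m / D with hg0
  have hg01 : G1 ≤ g0 := by
    rw [hg0, Nat.le_div_iff_mul_le hD0, mul_comm]
    exact hm1
  have hg02 : 2 ≤ g0 := (le_max_right _ _).trans hg01
  have hDm : D * g0 ≤ m := Nat.mul_div_le m D
  have hmD : m < D * (g0 + 1) := by
    rw [hg0]
    exact Nat.lt_mul_div_succ m hD0
  have hN2 : N ≤ 2 * K' * D * g0 := by
    calc N ≤ K' * m := hNm
      _ ≤ K' * (D * (g0 + 1)) := Nat.mul_le_mul_left _ hmD.le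
      _ ≤ K' * (D * (g0 + g0)) := Nat.mul_le_mul_left _ (Nat.mul_le_mul_left _ (by omega))
      _ = _ := by ring
  have hsc : ∀ j, j ≤ J * L → 82 * (K * gg g0 j) ≤ m := by
    intro j hj
    have h1 := gg_mono (g0 := g0) hj
    calc 82 * (K * gg g0 j) ≤ 82 * (K * gg g0 (J * L)) :=
          Nat.mul_le_mul_left _ (Nat.mul_le_mul_left _ h1)
      _ = D * g0 := by rw [hD]; unfold gg; ring
      _ ≤ m := hDm
  -- trivial case
  by_cases hin : inR 0 N 0 N z ∧ z.1 + m ≤ N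
  swap
  · have h0 : Pr ph (RE 0 N 0 N) (fun F => Ez N m z F ∧ ¬ RichOut N (M + 4 * K + 4) B
        (c0 / ((2 * K' * D : ℕ) : ℝ) ^ (4 / 3 : ℝ)) E0 t (Clu N z F)) ≤
        Pr ph (RE 0 N 0 N) (fun _ => False) := by
      apply Pr_mono okh
      rintro F _ ⟨⟨h1, -, w, h2, h3⟩, -⟩
      apply hin
      refine ⟨h1, ?_⟩
      have h4 : inR 0 N 0 N w := by
        induction h3 with
        | refl => exact h1
        | tail _ hs _ =>
          obtain ⟨e, ⟨-, he⟩, h5⟩ := hs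
          have h6 := re_ends (Finset.mem_coe.1 he)
          rcases h5 with ⟨-, h5⟩ | ⟨h5, -⟩
          · rw [← h5]; exact h6.2
          · rw [← h5]; exact h6.1
      have := h4.1.2
      omega
    refine h0.trans ?_
    have : Pr ph (RE 0 N 0 N) (fun _ => False) = 0 := by
      unfold Pr
      rw [Ex_congr (g := fun _ => 0) (fun F _ => ind_not_of (fun h => h)), Ex_const]
    rw [this]
    exact mul_nonneg hη.le (Pr_nonneg okh _ _)
  obtain ⟨hin, hzm⟩ := hin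
  have hz0 : 0 ≤ z.2 := hin.2.1
  set Sb : Finset Edg := RE (-N) (2 * N) (-N) (2 * N) with hSb
  have hsub : RE 0 N 0 N ⊆ Sb := by
    rw [hSb]
    apply RE_subset <;> omega
  have hblk : ∀ k : ℕ, k ≤ N → blk z k ⊆ Sb := by
    intro k hk
    obtain ⟨⟨a1, a2⟩, a3, a4⟩ := hin
    unfold blk
    rw [hSb]
    apply RE_subset <;> omega
  have e1 : Pr ph Sb (Ez N m z) = Pr ph (RE 0 N 0 N) (Ez N m z) :=
    Pr_local hsub (fun F _ => ez_loc N m z F)
  set RO : Set Vtx → Prop := RichOut N (M + 4 * K + 4) B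
    (c0 / ((2 * K' * D : ℕ) : ℝ) ^ (4 / 3 : ℝ)) E0 t with hRO
  have e2 : Pr ph Sb (fun F => Ez N m z F ∧ ¬ RO (Clu N z F)) =
      Pr ph (RE 0 N 0 N) (fun F => Ez N m z F ∧ ¬ RO (Clu N z F)) := by
    refine Pr_local hsub (fun F _ => ?_)
    rw [← ez_loc, ← clu_loc]
  rw [← e1, ← e2]
  set Bad : Finset Edg → Prop := fun G => ∃ b < J, ∀ l < L,
    ¬ Nice z (gg g0 (b * L + l)) (K * gg g0 (b * L + l)) G with hBad
  have hBadm : ∀ F G, F ⊆ G → Bad F → Bad G := by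
    rintro F G hFG ⟨b, hb, h⟩
    exact ⟨b, hb, fun l hl hn => h l hl (Nice.anti hFG hn)⟩
  have hBadp : Pr ph Sb Bad ≤ η / 2 := by
    refine hnice g0 z Sb hg02 (hblk _ ?_)
    have := hsc (J * L) le_rfl
    unfold gg at this
    omega
  have t1 := first_term hDEC hE (m := m) (z := z) hsub hBadm hBadp
  have t2 : Pr ph Sb (fun F => Ez N m z F ∧ (¬ Bad (F ∩ RV N z F)) ∧ ¬ RO (Clu N z F)) ≤
      η / 2 * Pr ph Sb (Ez N m z) := by
    refine second_term hDEC hE hsub (Nc := fun F => ¬ Bad F) (RO := RO) hin ?_ (half_pos hη).le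
    intro F _ hzA hnb
    have hnb' : ∀ b, b < J → ∃ l, l < L ∧
        Nice z (gg g0 (b * L + l)) (K * gg g0 (b * L + l)) (F ∩ RV N z F) := by
      intro b hb
      by_contra hcon
      push Not at hcon
      exact hnb ⟨b, hb, hcon⟩
    choose! l hl hni using hnb'
    have hjb : ∀ b < J, b * L + l b ≤ J * L := by
      intro b hb
      have h4 := hl b hb
      have h5 : (b + 1) * L ≤ J * L := Nat.mul_le_mul_right _ hb
      have h6 : (b + 1) * L = b * L + L := by ring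
      omega
    have hgp : ∀ j, g0 ≤ gg g0 j := by
      intro j
      have h := gg_mono (g0 := g0) (Nat.zero_le j)
      have h0 : gg g0 0 = g0 := by simp [gg]
      omega
    have hg2 : ∀ j, 2 ≤ gg g0 j := fun j => hg02.trans (hgp j)
    have hg1' : ∀ j, g1 ≤ gg g0 j := fun j => ((le_max_left _ _).trans hg01).trans (hgp j)
    have hgs : ∀ j, 64 * gg g0 j ≤ K * gg g0 j := fun j => Nat.mul_le_mul_right _ hK
    have hO : ∀ b < J, ObOk z (gg g0 (b * L + l b)) (K * gg g0 (b * L + l b)) (ObS N z F) := by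
      intro b hb
      have h1 := hsc _ (hjb b hb)
      have h2 := hg2 (b * L + l b)
      refine hND N _ _ z F (by omega) (hgs _) hin ?_ ?_ hzA (hni b hb)
      · have : (41 : ℤ) * ((K * gg g0 (b * L + l b) : ℕ) : ℤ) ≤ m := by
          have h3 : 41 * (K * gg g0 (b * L + l b)) ≤ m := by omega
          exact_mod_cast h3
        omega
      · have : (82 : ℤ) * ((K * gg g0 (b * L + l b) : ℕ) : ℤ) ≤ N := by
          have h3 : 82 * (K * gg g0 (b * L + l b)) ≤ N := by omega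
          exact_mod_cast h3
        omega
    have hmul := multi hITE hTRI hT2 hLam hRl (z := z) (K := K) (M := M) (B := B) (c0 := c0)
      (E0 := E0) (t := t) (pL := min pL 1) (p := min p 1) (lt_min hpL one_pos).le
      (min_le_right _ _) (lt_min hp one_pos).le (min_le_right _ _) hK (S := Sb) (m := m) (J := J)
      (L := L) (g0 := g0) (Ob := ObS N z F) hg02 hz0 l hl cw
      (fun b _ => ⟨hcw1 _ (hg1' _), hcw2 _ (hg1' _)⟩) hO
      (fun b hb => by have := hsc _ (hjb b hb); omega)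
      (fun b _ => (min_le_left _ _).trans
        (hlam _ _ z _ (hg2 _) (hcw1 _ (hg1' _)) (hcw2 _ (hg1' _)) (Finset.Subset.refl _)))
      (fun b _ => (min_le_left _ _).trans
        (hcw3 _ (hg1' _) (og z _ _) _ (by
          have := out_ann (z := z) (hgs (b * L + l b)) (hg2 _)
          push_cast at this ⊢
          exact this)))
      (fun b hb => hblk _ (by have := hsc _ (hjb b hb); omega))
    refine le_trans (Pr_mono okh ?_) (hmul.trans
      (mul_le_mul_of_nonneg_right hJ.le (Pr_nonneg okh _ _)))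
    rintro G _ ⟨h1, h2⟩
    refine ⟨h1, fun b hb hGs => h2 ?_⟩
    obtain ⟨w, hw1, hw2⟩ := h1
    have h3 := hsc _ (hjb b hb)
    have hw3 : 20 * ((K * gg g0 (b * L + l b) : ℕ) : ℤ) ≤ sd w z := by
      unfold sd
      apply le_max_of_le_left
      rw [le_abs]
      left
      have h4 : (20 : ℤ) * ((K * gg g0 (b * L + l b) : ℕ) : ℤ) ≤ m := by
        have h5 : 20 * (K * gg g0 (b * L + l b)) ≤ m := by omega
        exact_mod_cast h5
      omega
    have h5 := detm hT2 hCON hCOR (K := K) (N := N) (M := M) (B := B) (hg2 (b * L + l b)) (hgs _)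
      le_rfl (by omega) hB (hcw1 _ (hg1' _)) (hcw2 _ (hg1' _)) hz0 (hO b hb) hGs.1 hGs.2 hw3 hw2
    refine rich_up (s := K * gg g0 (b * L + l b)) ?_ (by omega) ?_ ?_ hc0 hE0 ht1 h5
    · have := hg2 (b * L + l b)
      nlinarith
    · refine hN2.trans (Nat.mul_le_mul_left _ ?_)
      have := hgp (b * L + l b)
      nlinarith
    · have : 0 < 2 * K' * D := by positivity
      omega
  calc Pr ph Sb (fun F => Ez N m z F ∧ ¬ RO (Clu N z F))
      ≤ Pr ph Sb (fun F => (Ez N m z F ∧ Bad (F ∩ RV N z F)) ∨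
          (Ez N m z F ∧ (¬ Bad (F ∩ RV N z F)) ∧ ¬ RO (Clu N z F))) := by
        apply Pr_mono okh
        rintro F _ ⟨h1, h2⟩
        by_cases h3 : Bad (F ∩ RV N z F)
        · exact Or.inl ⟨h1, h3⟩
        · exact Or.inr ⟨h1, h3, h2⟩
    _ ≤ _ := Pr_or_le okh _ _ _
    _ ≤ η / 2 * Pr ph Sb (Ez N m z) + η / 2 * Pr ph Sb (Ez N m z) := add_le_add t1 t2
    _ = _ := by ring

end Pool.Agent.W2helper82.OA.MZ
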